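import Pool.Agent.R745.CDX.Defs
import Pool.Agent.R420.CDX.Cases

/-! Piece XF5 of project CDX, part `K + L = 5`, `s = t = 0`. -/

namespace R745CDX

open R420CDX

lemma FinX.swap88 {Q : ℕ} {m : ℝ} {k l K L : ℕ} {aj bj zj wj ai bi s zP t wP
    Z10 U01 U11 P01 P11 W10 V01 V11 R01 R11 p r : ℝ}
    (h : FinX Q m k l K L aj bj zj wj ai bi s zP t wP Z10 U01 U11 P01 P11 W10 V01 V11 R01 R11 p r) :
    FinX Q m l k L K bj aj wj zj bi ai t wP s zP W10 V01 V11 R01 R11 Z10 U01 U11 P01 P11 r p where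
  hm := h.hm
  hm0 := h.hm0
  hk := h.hl
  hl := h.hk
  hkl := by have := h.hkl; omega
  hKL := by
    rcases h.hKL with h1 | ⟨h1, h2, h3⟩
    · left; omega
    · right; exact ⟨by omega, h3, h2⟩
  haj0 := h.hbj0
  hbj0 := h.haj0
  hai0 := h.hbi0
  hbi0 := h.hai0
  haj2 := h.hbj2
  hbj2 := h.haj2
  hai2 := h.hbi2
  hbi2 := h.hai2
  haj := h.hbj
  hbj := h.haj
  hJ1 := h.hJ2
  hJ2 := h.hJ1
  hJ3 := by have := h.hJ3; linarith
  hs := h.ht
  hzP := h.hwP
  ht := h.hs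
  hwP := h.hzP
  hai := h.hbi
  hbi := h.hai
  hI1 := h.hI2
  hI2 := h.hI1
  hZ10 := h.hW10
  hU01 := h.hV01
  hU11 := h.hV11
  hP01 := h.hR01
  hP11 := h.hR11
  hW10 := h.hZ10
  hV01 := h.hU01
  hV11 := h.hU11
  hR01 := h.hP01
  hR11 := h.hP11
  c1 := h.c3
  c2 := h.c4
  c3 := h.c1
  c4 := h.c2
  r1 := h.r2
  r2 := h.r1
  hp := h.hr
  hr := h.hp
  hp2 := h.hr2
  hr2 := h.hp2
  q1 := h.q2
  q2 := h.q1
  q3 := h.q4
  q4 := h.q3
  q5 := h.q6
  q6 := h.q5

lemma FinX.kl88 {m : ℝ} {k l K L : ℕ} {aj bj zj wj ai bi s zP t wP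
    Z10 U01 U11 P01 P11 W10 V01 V11 R01 R11 p r : ℝ}
    (h : FinX 5 m k l K L aj bj zj wj ai bi s zP t wP Z10 U01 U11 P01 P11 W10 V01 V11 R01 R11 p r) :
    (k = 2 ∧ l = 3) ∨ (k = 3 ∧ l = 2) := by
  have hk1 : (1 : ℝ) ≤ k := by exact_mod_cast h.hk
  have hl1 : (1 : ℝ) ≤ l := by exact_mod_cast h.hl
  have hz : 0 < zj := by
    have := h.haj0
    rw [h.haj] at this
    exact (mul_pos_iff_of_pos_left (by linarith)).1 this
  have hw : 0 < wj := by
    have := h.hbj0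
    rw [h.hbj] at this
    exact (mul_pos_iff_of_pos_left (by linarith)).1 this
  have hkl : (k : ℝ) + l ≤ 5 := by exact_mod_cast h.hkl
  have J1 := h.hJ1
  have J2 := h.hJ2
  have J3 := h.hJ3
  rw [h.hbj] at J1 J3
  rw [h.haj] at J2 J3
  have j1 := mul_le_mul_of_nonneg_left J1 (by linarith : (0 : ℝ) ≤ k)
  have j2 := mul_le_mul_of_nonneg_left J2 (by linarith : (0 : ℝ) ≤ l)
  have hm0 := h.hm0
  have key : 5 * m < (k + l) * m + ((k : ℝ) * l - k - l) * (zj * wj) := by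
    push_cast at J3
    nlinarith
  have hpos : 0 < (k : ℝ) * l - k - l := by
    by_contra hc
    push Not at hc
    have h1 : ((k : ℝ) * l - k - l) * (zj * wj) ≤ 0 :=
      mul_nonpos_of_nonpos_of_nonneg hc (mul_pos hz hw).le
    nlinarith
  have hnat : k + l < k * l := by
    have : ((k + l : ℕ) : ℝ) < ((k * l : ℕ) : ℝ) := by push_cast; linarith
    exact_mod_cast this
  have hkl' := h.hkl
  have hk' := h.hk
  have hl' := h.hl
  have hk5 : k ≤ 4 := by omega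
  have hl5 : l ≤ 4 := by omega
  interval_cases k <;> interval_cases l <;> omega

lemma baseE88 (z w K L x u y v p r W Z : ℝ) (hp0 : 0 ≤ 1 - 2 * z - K * x)
    (hr0 : 0 ≤ 1 - 3 * w - L * y) (hp : 1 - 2 * z - K * x ≤ p) (hr : 1 - 3 * w - L * y ≤ r)
    (hW : w ≤ W + L * v) (hZ : z ≤ Z + K * u) (hW0 : 0 ≤ W) (hZ0 : 0 ≤ Z) (hx : 0 ≤ x)
    (hu : 0 ≤ u) (hy : 0 ≤ y) (hv : 0 ≤ v) (V1 : p * (r + 10 * (W + y) + 25 * v) ≤ 1)
    (V2 : r * (p + 10 * (Z + x) + 25 * u) ≤ 1) :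
    (1 - 2 * z - K * x) * (1 - 3 * w - L * y) + 5 * (1 - 2 * z - K * x) * (w - L * v + y)
      + 5 * (1 - 3 * w - L * y) * (z - K * u + x)
      + 12.5 * ((1 - 2 * z - K * x) * v + (1 - 3 * w - L * y) * u) ≤ 1 := by
  set P := 1 - 2 * z - K * x with hP
  set R := 1 - 3 * w - L * y with hR
  have t1 : P * (R + 10 * (W + y) + 25 * v) ≤ p * (r + 10 * (W + y) + 25 * v) :=
    mul_le_mul hp (by linarith) (by positivity) (by linarith)
  have t2 : R * (P + 10 * (Z + x) + 25 * u) ≤ r * (p + 10 * (Z + x) + 25 * u) :=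
    mul_le_mul hr (by linarith) (by positivity) (by linarith)
  have t3 : 0 ≤ P * (W + L * v - w) := mul_nonneg hp0 (by linarith)
  have t4 : 0 ≤ R * (Z + K * u - z) := mul_nonneg hr0 (by linarith)
  linarith

theorem xf5b23x88 (m : ℝ) (K L : ℕ) (aj bj zj wj ai bi s zP t wP
    Z10 U01 U11 P01 P11 W10 V01 V11 R01 R11 p r : ℝ)
    (h : FinX 5 m 2 3 K L aj bj zj wj ai bi s zP t wP Z10 U01 U11 P01 P11 W10 V01 V11 R01 R11 p r)
    (hKL : K + L = 5) (hs : s = 0) (ht : t = 0)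
    (V1 : p * (r + 2 * 5 * (W10 + (V01 + R01)) + 5 ^ 2 * (V11 + R11)) ≤ 1)
    (V2 : r * (p + 2 * 5 * (Z10 + (U01 + P01)) + 5 ^ 2 * (U11 + P11)) ≤ 1) : False := by
  subst hs ht
  have hm : 9 * m ≤ 1 := by
    have := h.hm
    simpa [H825CD.qb] using this
  have hm0 := h.hm0
  -- zero components
  have c1 := h.c1
  have c3 := h.c3
  push_cast at c1 c3
  have hU01 : U01 = 0 := by linarith [h.hU01, h.hU11]
  have hU11 : U11 = 0 := by linarith [h.hU01, h.hU11]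
  have hV01 : V01 = 0 := by linarith [h.hV01, h.hV11]
  have hV11 : V11 = 0 := by linarith [h.hV01, h.hV11]
  subst hU01 hU11 hV01 hV11
  have hx := h.hP01
  have hu := h.hP11
  have hy := h.hR01
  have hv := h.hR11
  have hZ := h.hZ10
  have hW := h.hW10
  have hzP := h.hzP
  have hwP := h.hwP
  -- coordinate j
  have haj := h.haj
  have hbj := h.hbj
  push_cast at haj hbj
  have haj2 := h.haj2
  have hbj2 := h.hbj2
  have J1 := h.hJ1
  have J2 := h.hJ2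
  have J3 := h.hJ3
  push_cast at J3
  rw [haj] at haj2 J2 J3
  rw [hbj] at hbj2 J1 J3
  have hz0 : 0 ≤ zj := by have := h.haj0; linarith
  have hw0 : 0 ≤ wj := by have := h.hbj0; linarith
  obtain ⟨hz1, hw1⟩ := up23 m zj wj hm hm0 hz0 hw0 (by linarith) (by linarith) (by linarith)
    (by linarith)
  obtain ⟨hz2, hw2, hw3, hz3, hA⟩ := lo23 m zj wj hm hm0 hz0 hw0 hz1 hw1 (by linarith)
    (by linarith) (by linarith)
  -- coordinate i
  have hai := h.hai
  have hbi := h.hbi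
  rw [zero_add] at hai hbi
  have hai0 := h.hai0
  have hbi0 := h.hbi0
  have hai2 := h.hai2
  have hbi2 := h.hbi2
  rw [hai] at hai0 hai2
  rw [hbi] at hbi0 hbi2
  have hK : K ≠ 0 := by rintro rfl; simp at hai0
  have hL : L ≠ 0 := by rintro rfl; simp at hbi0
  have I1 := h.hI1
  have I2 := h.hI2
  rw [hbi, zero_add] at I1
  rw [hai, zero_add] at I2
  have c2 := h.c2
  have c4 := h.c4
  push_cast at c2 c4
  have r1 := h.r1
  have r2 := h.r2
  rw [add_zero] at r1 r2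
  have hp2 := h.hp2
  have hr2 := h.hr2
  rw [haj, sub_zero] at hp2
  rw [hbj, sub_zero] at hr2
  have hK0 : (0 : ℝ) ≤ K := Nat.cast_nonneg K
  have hL0 : (0 : ℝ) ≤ L := Nat.cast_nonneg L
  have hKx : (K : ℝ) * P01 ≤ K * zP := mul_le_mul_of_nonneg_left (by linarith) hK0
  have hLy : (L : ℝ) * R01 ≤ L * wP := mul_le_mul_of_nonneg_left (by linarith) hL0
  have hp0 : 0 ≤ 1 - 2 * zj - K * P01 := by linarith
  have hr0 : 0 ≤ 1 - 3 * wj - L * R01 := by linarith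
  have E := baseE88 zj wj K L P01 P11 R01 R11 p r W10 Z10 hp0 hr0 hp2 hr2 r2 r1 hW hZ hx hu hy hv
    (by linarith) (by linarith)
  have q3 := h.q3
  have q4 := h.q4
  have q5 := h.q5
  have q6 := h.q6
  simp only [H825CD.qb] at q3 q4 q5 q6
  norm_num at q3 q4 q5 q6
  have t1 : (zj - (K - 1) * P11) * (R01 + R11) ≤ (Z10 + P11) * (R01 + R11) :=
    mul_le_mul_of_nonneg_right (by linarith) (by linarith)
  have t2 : (wj - (L - 1) * R11) * (P01 + P11) ≤ (W10 + R11) * (P01 + P11) :=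
    mul_le_mul_of_nonneg_right (by linarith) (by linarith)
  have t3 : P11 * (1 - 3 * wj - L * R01) ≤ P11 * (r + W10) :=
    mul_le_mul_of_nonneg_left (by linarith) hu
  have t4 : P11 * (1 - 3 * wj - L * R01 + (wj - L * R11)) ≤ P11 * (r + W10) :=
    mul_le_mul_of_nonneg_left (by linarith) hu
  have t5 : R11 * (1 - 2 * zj - K * P01) ≤ R11 * (p + Z10) :=
    mul_le_mul_of_nonneg_left (by linarith) hv
  have t6 : R11 * (1 - 2 * zj - K * P01 + (zj - K * P11)) ≤ R11 * (p + Z10) :=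
    mul_le_mul_of_nonneg_left (by linarith) hv
  have hcases : (K = 1 ∧ L = 4) ∨ (K = 2 ∧ L = 3) ∨ (K = 3 ∧ L = 2) ∨ (K = 4 ∧ L = 1) := by omega
  rcases hcases with ⟨rfl, rfl⟩ | ⟨rfl, rfl⟩ | ⟨rfl, rfl⟩ | ⟨rfl, rfl⟩
  · push_cast at *
    have b1 : wP ≤ m := by linarith
    have b2 : zP ≤ 1.5 * m := by
      have : 0 ≤ zP * (1 / 9 - wP) := mul_nonneg hzP (by linarith)
      nlinarith
    exact case14 m zj wj P01 P11 R01 R11 hm0 hm hz1 hw1 hz2 hw2 hz3 hA hx hu hy hv (by linarith)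
      (by linarith) (by linarith) (by linarith) (by linarith) (by linarith)
  · push_cast at *
    obtain ⟨b1, b2⟩ := up23 m zP wP hm hm0 hzP hwP (by linarith) (by linarith) (by linarith)
      (by linarith)
    exact case23 m zj wj P01 P11 R01 R11 hm0 hm hz1 hw1 hz2 hw2 hx hu hy hv (by linarith)
      (by linarith) (by linarith) (by linarith) (by linarith) (by linarith) (by linarith)
      (by linarith)
  · push_cast at *
    obtain ⟨b1, b2⟩ := up23 m wP zP hm hm0 hwP hzP (by linarith) (by linarith) (by linarith)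
      (by linarith)
    exact case32 m zj wj P01 P11 R01 R11 hm0 hm hz1 hw1 hz2 hw2 hx hu hy hv (by linarith)
      (by linarith) (by linarith) (by linarith) (by linarith) (by linarith) (by linarith)
      (by linarith)
  · push_cast at *
    have b1 : zP ≤ m := by linarith
    have b2 : wP ≤ 1.5 * m := by
      have : 0 ≤ wP * (1 / 9 - zP) := mul_nonneg hwP (by linarith)
      nlinarith
    exact case41 m zj wj P01 P11 R01 R11 hm0 hm hz1 hw1 hz2 hw2 hw3 hA hx hu hy hv (by linarith)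
      (by linarith) (by linarith) (by linarith) (by linarith) (by linarith)

/-- the case `K + L = 5`, `s = t = 0` of `X_final 5` -/
theorem xf5bx88 (m : ℝ) (k l K L : ℕ) (aj bj zj wj ai bi s zP t wP
    Z10 U01 U11 P01 P11 W10 V01 V11 R01 R11 p r : ℝ)
    (h : FinX 5 m k l K L aj bj zj wj ai bi s zP t wP Z10 U01 U11 P01 P11 W10 V01 V11 R01 R11 p r)
    (hKL : K + L = 5) (hs : s = 0) (ht : t = 0)
    (V1 : p * (r + 2 * ((5 : ℕ) : ℝ) * (W10 + (V01 + R01)) + ((5 : ℕ) : ℝ) ^ 2 * (V11 + R11)) ≤ 1)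
    (V2 : r * (p + 2 * ((5 : ℕ) : ℝ) * (Z10 + (U01 + P01)) + ((5 : ℕ) : ℝ) ^ 2 * (U11 + P11)) ≤ 1) :
    False := by
  push_cast at V1 V2
  rcases h.kl88 with ⟨rfl, rfl⟩ | ⟨rfl, rfl⟩
  · exact xf5b23x88 m K L aj bj zj wj ai bi s zP t wP Z10 U01 U11 P01 P11 W10 V01 V11 R01 R11 p r h
      hKL hs ht V1 V2
  · exact xf5b23x88 m L K bj aj wj zj bi ai t wP s zP W10 V01 V11 R01 R11 Z10 U01 U11 P01 P11 r p
      h.swap88 (by omega) ht hs V2 V1

end R745CDX
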