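import Pool.Agent.R88.CDX.XF5A
import Pool.Agent.R88.CDX.XF5B

namespace R745CDX

open R88CDX

theorem tX_final5 : X_final 5 := by
  intro m k l K L aj bj zj wj ai bi s zP t wP Z10 U01 U11 P01 P11 W10 V01 V11 R01 R11 p r h V1 V2
  rcases Nat.lt_or_ge (K + L) 5 with hKL | hKL
  · rcases h.kl88 with ⟨rfl, rfl⟩ | ⟨rfl, rfl⟩
    · exact xf5a h (by omega) V1 V2
    · exact xf5a h.swap88 (by omega) V2 V1
  · rcases h.hKL with h1 | ⟨h1, h2, h3⟩
    · omega
    · exact xf5bx88 m k l K L aj bj zj wj ai bi s zP t wP Z10 U01 U11 P01 P11 W10 V01 V11 R01 R11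
        p r h (by omega) h2 h3 V1 V2

end R745CDX
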