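import Mathlib

set_option linter.unusedVariables false
namespace R88CDX

set_option maxHeartbeats 1000000 in
theorem case00 {m z w U P V R : ℝ} (hm : 0 ≤ 1 - 9 * m) (hm0 : 0 < m) (hz1 : m ≤ z) (hw1 : m ≤ w)
    (a1 : 0 ≤ 1.36 * m - z) (a2 : 0 ≤ 1.179 * m - w) (hT : 2.9 * m ≤ 3 * z + 2 * w - 19 * z * w)
    (hU : 0 ≤ U) (hPP : 0 ≤ P) (hV : 0 ≤ V) (hRR : 0 ≤ R) (hUP : 0 ≤ 2 * m - U - P)
    (hVR : 0 ≤ 2 * m - V - R) (hP : 9 * (w * P) ≤ m) (hR : 9 * (z * R) ≤ m) :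
    0 < (3 * z + 2 * w - 19 * z * w) - 0/18 * m + (4 - 17 * w) * U + (5 - 15 * w) * P
      + (4 - 13 * z) * V + (5 - 10 * z) * R - 9 * (U * V) - 5 * (U * R)
      - 5 * (P * V) - 0 * (P * R) := by
  nlinarith [mul_nonneg hU a2, mul_nonneg hPP a2, mul_nonneg hV a1, mul_nonneg hRR a1,
    mul_nonneg hU hm, mul_nonneg hPP hm, mul_nonneg hV hm, mul_nonneg hRR hm,
    mul_nonneg hU hVR, mul_nonneg hPP hVR, mul_nonneg hV hUP, mul_nonneg hRR hUP,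
    mul_nonneg hU hV, mul_nonneg hU hRR, mul_nonneg hPP hV, mul_nonneg hPP hRR, mul_nonneg hUP hVR,
    mul_nonneg hPP (sub_nonneg.2 hw1), mul_nonneg hRR (sub_nonneg.2 hz1), mul_nonneg hm0.le hm]

set_option maxHeartbeats 1000000 in
theorem case01 {m z w U P V R : ℝ} (hm : 0 ≤ 1 - 9 * m) (hm0 : 0 < m) (hz1 : m ≤ z) (hw1 : m ≤ w)
    (a1 : 0 ≤ 1.36 * m - z) (a2 : 0 ≤ 1.179 * m - w) (hT : 2.9 * m ≤ 3 * z + 2 * w - 19 * z * w)
    (hU : 0 ≤ U) (hPP : 0 ≤ P) (hV : 0 ≤ V) (hRR : 0 ≤ R) (hUP : 0 ≤ 2 * m - U - P)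
    (hVR : 0 ≤ 2 * m - V - R) (hP : 9 * (w * P) ≤ m) (hR : 9 * (z * R) ≤ m) :
    0 < (3 * z + 2 * w - 19 * z * w) - 0/18 * m + (4 - 17 * w) * U + (5 - 15 * w) * P
      + (4 - 13 * z) * V + (4 - 13 * z) * R - 9 * (U * V) - 9 * (U * R)
      - 5 * (P * V) - 5 * (P * R) := by
  nlinarith [mul_nonneg hU a2, mul_nonneg hPP a2, mul_nonneg hV a1, mul_nonneg hRR a1,
    mul_nonneg hU hm, mul_nonneg hPP hm, mul_nonneg hV hm, mul_nonneg hRR hm,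
    mul_nonneg hU hVR, mul_nonneg hPP hVR, mul_nonneg hV hUP, mul_nonneg hRR hUP,
    mul_nonneg hU hV, mul_nonneg hU hRR, mul_nonneg hPP hV, mul_nonneg hPP hRR, mul_nonneg hUP hVR,
    mul_nonneg hPP (sub_nonneg.2 hw1), mul_nonneg hRR (sub_nonneg.2 hz1), mul_nonneg hm0.le hm]

set_option maxHeartbeats 1000000 in
theorem case10 {m z w U P V R : ℝ} (hm : 0 ≤ 1 - 9 * m) (hm0 : 0 < m) (hz1 : m ≤ z) (hw1 : m ≤ w)
    (a1 : 0 ≤ 1.36 * m - z) (a2 : 0 ≤ 1.179 * m - w) (hT : 2.9 * m ≤ 3 * z + 2 * w - 19 * z * w)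
    (hU : 0 ≤ U) (hPP : 0 ≤ P) (hV : 0 ≤ V) (hRR : 0 ≤ R) (hUP : 0 ≤ 2 * m - U - P)
    (hVR : 0 ≤ 2 * m - V - R) (hP : 9 * (w * P) ≤ m) (hR : 9 * (z * R) ≤ m) :
    0 < (3 * z + 2 * w - 19 * z * w) - 0/18 * m + (4 - 17 * w) * U + (4 - 17 * w) * P
      + (4 - 13 * z) * V + (5 - 10 * z) * R - 9 * (U * V) - 5 * (U * R)
      - 9 * (P * V) - 5 * (P * R) := by
  nlinarith [mul_nonneg hU a2, mul_nonneg hPP a2, mul_nonneg hV a1, mul_nonneg hRR a1,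
    mul_nonneg hU hm, mul_nonneg hPP hm, mul_nonneg hV hm, mul_nonneg hRR hm,
    mul_nonneg hU hVR, mul_nonneg hPP hVR, mul_nonneg hV hUP, mul_nonneg hRR hUP,
    mul_nonneg hU hV, mul_nonneg hU hRR, mul_nonneg hPP hV, mul_nonneg hPP hRR, mul_nonneg hUP hVR,
    mul_nonneg hPP (sub_nonneg.2 hw1), mul_nonneg hRR (sub_nonneg.2 hz1), mul_nonneg hm0.le hm]

set_option maxHeartbeats 1000000 in
theorem case02 {m z w U P V R : ℝ} (hm : 0 ≤ 1 - 9 * m) (hm0 : 0 < m) (hz1 : m ≤ z) (hw1 : m ≤ w)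
    (a1 : 0 ≤ 1.36 * m - z) (a2 : 0 ≤ 1.179 * m - w) (hT : 2.9 * m ≤ 3 * z + 2 * w - 19 * z * w)
    (hU : 0 ≤ U) (hPP : 0 ≤ P) (hV : 0 ≤ V) (hRR : 0 ≤ R) (hUP : 0 ≤ 2 * m - U - P)
    (hVR : 0 ≤ 2 * m - V - R) (hR : 9 * (z * R) ≤ m) :
    0 < (3 * z + 2 * w - 19 * z * w) - 0/18 * m + (4 - 17 * w) * U + (5 - 15 * w) * P
      + (4 - 13 * z) * V + (3 - 16 * z) * R - 9 * (U * V) - 13 * (U * R)
      - 5 * (P * V) - 10 * (P * R) := by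
  nlinarith [mul_nonneg hU a2, mul_nonneg hPP a2, mul_nonneg hV a1, mul_nonneg hRR a1,
    mul_nonneg hU hm, mul_nonneg hPP hm, mul_nonneg hV hm, mul_nonneg hRR hm,
    mul_nonneg hU hVR, mul_nonneg hPP hVR, mul_nonneg hV hUP, mul_nonneg hRR hUP,
    mul_nonneg hU hV, mul_nonneg hU hRR, mul_nonneg hPP hV, mul_nonneg hPP hRR, mul_nonneg hUP hVR,
    mul_nonneg hPP (sub_nonneg.2 hw1), mul_nonneg hRR (sub_nonneg.2 hz1), mul_nonneg hm0.le hm]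

set_option maxHeartbeats 1000000 in
theorem case11 {m z w U P V R : ℝ} (hm : 0 ≤ 1 - 9 * m) (hm0 : 0 < m) (hz1 : m ≤ z) (hw1 : m ≤ w)
    (a1 : 0 ≤ 1.36 * m - z) (a2 : 0 ≤ 1.179 * m - w) (hT : 2.9 * m ≤ 3 * z + 2 * w - 19 * z * w)
    (hU : 0 ≤ U) (hPP : 0 ≤ P) (hV : 0 ≤ V) (hRR : 0 ≤ R) (hUP : 0 ≤ 2 * m - U - P)
    (hVR : 0 ≤ 2 * m - V - R) (hP : 9 * (w * P) ≤ m) (hR : 9 * (z * R) ≤ m) :
    0 < (3 * z + 2 * w - 19 * z * w) - 0/18 * m + (4 - 17 * w) * U + (4 - 17 * w) * P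
      + (4 - 13 * z) * V + (4 - 13 * z) * R - 9 * (U * V) - 9 * (U * R)
      - 9 * (P * V) - 9 * (P * R) := by
  nlinarith [mul_nonneg hU a2, mul_nonneg hPP a2, mul_nonneg hV a1, mul_nonneg hRR a1,
    mul_nonneg hU hm, mul_nonneg hPP hm, mul_nonneg hV hm, mul_nonneg hRR hm,
    mul_nonneg hU hVR, mul_nonneg hPP hVR, mul_nonneg hV hUP, mul_nonneg hRR hUP,
    mul_nonneg hU hV, mul_nonneg hU hRR, mul_nonneg hPP hV, mul_nonneg hPP hRR, mul_nonneg hUP hVR,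
    mul_nonneg hPP (sub_nonneg.2 hw1), mul_nonneg hRR (sub_nonneg.2 hz1), mul_nonneg hm0.le hm]

set_option maxHeartbeats 1000000 in
theorem case20 {m z w U P V R : ℝ} (hm : 0 ≤ 1 - 9 * m) (hm0 : 0 < m) (hz1 : m ≤ z) (hw1 : m ≤ w)
    (a1 : 0 ≤ 1.36 * m - z) (a2 : 0 ≤ 1.179 * m - w) (hT : 2.9 * m ≤ 3 * z + 2 * w - 19 * z * w)
    (hU : 0 ≤ U) (hPP : 0 ≤ P) (hV : 0 ≤ V) (hRR : 0 ≤ R) (hUP : 0 ≤ 2 * m - U - P)
    (hVR : 0 ≤ 2 * m - V - R) (hP : 9 * (w * P) ≤ m) :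
    0 < (3 * z + 2 * w - 19 * z * w) - 0/18 * m + (4 - 17 * w) * U + (3 - 19 * w) * P
      + (4 - 13 * z) * V + (5 - 10 * z) * R - 9 * (U * V) - 5 * (U * R)
      - 13 * (P * V) - 10 * (P * R) := by
  nlinarith [mul_nonneg hU a2, mul_nonneg hPP a2, mul_nonneg hV a1, mul_nonneg hRR a1,
    mul_nonneg hU hm, mul_nonneg hPP hm, mul_nonneg hV hm, mul_nonneg hRR hm,
    mul_nonneg hU hVR, mul_nonneg hPP hVR, mul_nonneg hV hUP, mul_nonneg hRR hUP,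
    mul_nonneg hU hV, mul_nonneg hU hRR, mul_nonneg hPP hV, mul_nonneg hPP hRR, mul_nonneg hUP hVR,
    mul_nonneg hPP (sub_nonneg.2 hw1), mul_nonneg hRR (sub_nonneg.2 hz1), mul_nonneg hm0.le hm]

set_option maxHeartbeats 1000000 in
theorem case03 {m z w U P V R : ℝ} (hm : 0 ≤ 1 - 9 * m) (hm0 : 0 < m) (hz1 : m ≤ z) (hw1 : m ≤ w)
    (a1 : 0 ≤ 1.36 * m - z) (a2 : 0 ≤ 1.179 * m - w) (hT : 2.9 * m ≤ 3 * z + 2 * w - 19 * z * w)
    (hU : 0 ≤ U) (hPP : 0 ≤ P) (hV : 0 ≤ V) (hRR : 0 ≤ R) (hUP : 0 ≤ 2 * m - U - P)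
    (hVR : 0 ≤ 2 * m - V - R) (hR : 9 * (z * R) ≤ m) :
    0 < (3 * z + 2 * w - 19 * z * w) - 5/18 * m + (4 - 17 * w) * U + (5 - 15 * w) * P
      + (4 - 13 * z) * V + (2 - 19 * z) * R - 9 * (U * V) - 17 * (U * R)
      - 5 * (P * V) - 15 * (P * R) := by
  nlinarith [mul_nonneg hU a2, mul_nonneg hPP a2, mul_nonneg hV a1, mul_nonneg hRR a1,
    mul_nonneg hU hm, mul_nonneg hPP hm, mul_nonneg hV hm, mul_nonneg hRR hm,
    mul_nonneg hU hVR, mul_nonneg hPP hVR, mul_nonneg hV hUP, mul_nonneg hRR hUP,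
    mul_nonneg hU hV, mul_nonneg hU hRR, mul_nonneg hPP hV, mul_nonneg hPP hRR, mul_nonneg hUP hVR,
    mul_nonneg hPP (sub_nonneg.2 hw1), mul_nonneg hRR (sub_nonneg.2 hz1), mul_nonneg hm0.le hm]

set_option maxHeartbeats 1000000 in
theorem case12 {m z w U P V R : ℝ} (hm : 0 ≤ 1 - 9 * m) (hm0 : 0 < m) (hz1 : m ≤ z) (hw1 : m ≤ w)
    (a1 : 0 ≤ 1.36 * m - z) (a2 : 0 ≤ 1.179 * m - w) (hT : 2.9 * m ≤ 3 * z + 2 * w - 19 * z * w)
    (hU : 0 ≤ U) (hPP : 0 ≤ P) (hV : 0 ≤ V) (hRR : 0 ≤ R) (hUP : 0 ≤ 2 * m - U - P)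
    (hVR : 0 ≤ 2 * m - V - R) (hR : 9 * (z * R) ≤ m) :
    0 < (3 * z + 2 * w - 19 * z * w) - 0/18 * m + (4 - 17 * w) * U + (4 - 17 * w) * P
      + (4 - 13 * z) * V + (3 - 16 * z) * R - 9 * (U * V) - 13 * (U * R)
      - 9 * (P * V) - 13 * (P * R) := by
  nlinarith [mul_nonneg hU a2, mul_nonneg hPP a2, mul_nonneg hV a1, mul_nonneg hRR a1,
    mul_nonneg hU hm, mul_nonneg hPP hm, mul_nonneg hV hm, mul_nonneg hRR hm,
    mul_nonneg hU hVR, mul_nonneg hPP hVR, mul_nonneg hV hUP, mul_nonneg hRR hUP,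
    mul_nonneg hU hV, mul_nonneg hU hRR, mul_nonneg hPP hV, mul_nonneg hPP hRR, mul_nonneg hUP hVR,
    mul_nonneg hPP (sub_nonneg.2 hw1), mul_nonneg hRR (sub_nonneg.2 hz1), mul_nonneg hm0.le hm]

set_option maxHeartbeats 1000000 in
theorem case21 {m z w U P V R : ℝ} (hm : 0 ≤ 1 - 9 * m) (hm0 : 0 < m) (hz1 : m ≤ z) (hw1 : m ≤ w)
    (a1 : 0 ≤ 1.36 * m - z) (a2 : 0 ≤ 1.179 * m - w) (hT : 2.9 * m ≤ 3 * z + 2 * w - 19 * z * w)
    (hU : 0 ≤ U) (hPP : 0 ≤ P) (hV : 0 ≤ V) (hRR : 0 ≤ R) (hUP : 0 ≤ 2 * m - U - P)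
    (hVR : 0 ≤ 2 * m - V - R) (hP : 9 * (w * P) ≤ m) :
    0 < (3 * z + 2 * w - 19 * z * w) - 0/18 * m + (4 - 17 * w) * U + (3 - 19 * w) * P
      + (4 - 13 * z) * V + (4 - 13 * z) * R - 9 * (U * V) - 9 * (U * R)
      - 13 * (P * V) - 13 * (P * R) := by
  nlinarith [mul_nonneg hU a2, mul_nonneg hPP a2, mul_nonneg hV a1, mul_nonneg hRR a1,
    mul_nonneg hU hm, mul_nonneg hPP hm, mul_nonneg hV hm, mul_nonneg hRR hm,
    mul_nonneg hU hVR, mul_nonneg hPP hVR, mul_nonneg hV hUP, mul_nonneg hRR hUP,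
    mul_nonneg hU hV, mul_nonneg hU hRR, mul_nonneg hPP hV, mul_nonneg hPP hRR, mul_nonneg hUP hVR,
    mul_nonneg hPP (sub_nonneg.2 hw1), mul_nonneg hRR (sub_nonneg.2 hz1), mul_nonneg hm0.le hm]

set_option maxHeartbeats 1000000 in
theorem case30 {m z w U P V R : ℝ} (hm : 0 ≤ 1 - 9 * m) (hm0 : 0 < m) (hz1 : m ≤ z) (hw1 : m ≤ w)
    (a1 : 0 ≤ 1.36 * m - z) (a2 : 0 ≤ 1.179 * m - w) (hT : 2.9 * m ≤ 3 * z + 2 * w - 19 * z * w)
    (hU : 0 ≤ U) (hPP : 0 ≤ P) (hV : 0 ≤ V) (hRR : 0 ≤ R) (hUP : 0 ≤ 2 * m - U - P)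
    (hVR : 0 ≤ 2 * m - V - R) (hP : 9 * (w * P) ≤ m) :
    0 < (3 * z + 2 * w - 19 * z * w) - 5/18 * m + (4 - 17 * w) * U + (2 - 21 * w) * P
      + (4 - 13 * z) * V + (5 - 10 * z) * R - 9 * (U * V) - 5 * (U * R)
      - 17 * (P * V) - 15 * (P * R) := by
  nlinarith [mul_nonneg hU a2, mul_nonneg hPP a2, mul_nonneg hV a1, mul_nonneg hRR a1,
    mul_nonneg hU hm, mul_nonneg hPP hm, mul_nonneg hV hm, mul_nonneg hRR hm,
    mul_nonneg hU hVR, mul_nonneg hPP hVR, mul_nonneg hV hUP, mul_nonneg hRR hUP,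
    mul_nonneg hU hV, mul_nonneg hU hRR, mul_nonneg hPP hV, mul_nonneg hPP hRR, mul_nonneg hUP hVR,
    mul_nonneg hPP (sub_nonneg.2 hw1), mul_nonneg hRR (sub_nonneg.2 hz1), mul_nonneg hm0.le hm]

set_option maxHeartbeats 1000000 in
theorem case13 {m z w U P V R : ℝ} (hm : 0 ≤ 1 - 9 * m) (hm0 : 0 < m) (hz1 : m ≤ z) (hw1 : m ≤ w)
    (a1 : 0 ≤ 1.36 * m - z) (a2 : 0 ≤ 1.179 * m - w) (hT : 2.9 * m ≤ 3 * z + 2 * w - 19 * z * w)
    (hU : 0 ≤ U) (hPP : 0 ≤ P) (hV : 0 ≤ V) (hRR : 0 ≤ R) (hUP : 0 ≤ 2 * m - U - P)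
    (hVR : 0 ≤ 2 * m - V - R) (hR : 9 * (z * R) ≤ m) :
    0 < (3 * z + 2 * w - 19 * z * w) - 5/18 * m + (4 - 17 * w) * U + (4 - 17 * w) * P
      + (4 - 13 * z) * V + (2 - 19 * z) * R - 9 * (U * V) - 17 * (U * R)
      - 9 * (P * V) - 17 * (P * R) := by
  nlinarith [mul_nonneg hU a2, mul_nonneg hPP a2, mul_nonneg hV a1, mul_nonneg hRR a1,
    mul_nonneg hU hm, mul_nonneg hPP hm, mul_nonneg hV hm, mul_nonneg hRR hm,
    mul_nonneg hU hVR, mul_nonneg hPP hVR, mul_nonneg hV hUP, mul_nonneg hRR hUP,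
    mul_nonneg hU hV, mul_nonneg hU hRR, mul_nonneg hPP hV, mul_nonneg hPP hRR, mul_nonneg hUP hVR,
    mul_nonneg hPP (sub_nonneg.2 hw1), mul_nonneg hRR (sub_nonneg.2 hz1), mul_nonneg hm0.le hm]

set_option maxHeartbeats 1000000 in
theorem case31 {m z w U P V R : ℝ} (hm : 0 ≤ 1 - 9 * m) (hm0 : 0 < m) (hz1 : m ≤ z) (hw1 : m ≤ w)
    (a1 : 0 ≤ 1.36 * m - z) (a2 : 0 ≤ 1.179 * m - w) (hT : 2.9 * m ≤ 3 * z + 2 * w - 19 * z * w)
    (hU : 0 ≤ U) (hPP : 0 ≤ P) (hV : 0 ≤ V) (hRR : 0 ≤ R) (hUP : 0 ≤ 2 * m - U - P)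
    (hVR : 0 ≤ 2 * m - V - R) (hP : 9 * (w * P) ≤ m) :
    0 < (3 * z + 2 * w - 19 * z * w) - 5/18 * m + (4 - 17 * w) * U + (2 - 21 * w) * P
      + (4 - 13 * z) * V + (4 - 13 * z) * R - 9 * (U * V) - 9 * (U * R)
      - 17 * (P * V) - 17 * (P * R) := by
  nlinarith [mul_nonneg hU a2, mul_nonneg hPP a2, mul_nonneg hV a1, mul_nonneg hRR a1,
    mul_nonneg hU hm, mul_nonneg hPP hm, mul_nonneg hV hm, mul_nonneg hRR hm,
    mul_nonneg hU hVR, mul_nonneg hPP hVR, mul_nonneg hV hUP, mul_nonneg hRR hUP,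
    mul_nonneg hU hV, mul_nonneg hU hRR, mul_nonneg hPP hV, mul_nonneg hPP hRR, mul_nonneg hUP hVR,
    mul_nonneg hPP (sub_nonneg.2 hw1), mul_nonneg hRR (sub_nonneg.2 hz1), mul_nonneg hm0.le hm]




/-- case (4,0) -/
theorem case40 {m z w U P V R : ℝ} (hm : 0 ≤ 1 - 9 * m) (hm0 : 0 < m) (hz1 : m ≤ z) (hw1 : m ≤ w)
    (a1 : 0 ≤ 1.36 * m - z) (a2 : 0 ≤ 1.179 * m - w) (hT : 2.9 * m ≤ 3 * z + 2 * w - 19 * z * w)
    (hU : 0 ≤ U) (hPP : 0 ≤ P) (hV : 0 ≤ V) (hRR : 0 ≤ R) (hUP : U + P ≤ 1.24 * m)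
    (hVR : V + R ≤ 1.69 * m) (hP : 9 * (w * P) ≤ m) :
    0 < (3 * z + 2 * w - 19 * z * w) - 15/18 * m + (4 - 17 * w) * U + (1 - 23 * w) * P
      + (4 - 13 * z) * V + (5 - 10 * z) * R - 9 * (U * V) - 5 * (U * R)
      - 21 * (P * V) - 20 * (P * R) := by
  have wP1 : 0 ≤ P * (1.179 * m - w) := mul_nonneg hPP a2
  have wU1 : 0 ≤ U * (1.179 * m - w) := mul_nonneg hU a2
  have mP : 0 ≤ P * (1 - 9 * m) := mul_nonneg hPP hm
  have mU : 0 ≤ U * (1 - 9 * m) := mul_nonneg hU hm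
  have mwP : 0 ≤ P * (w - m) := mul_nonneg hPP (by linarith)
  have mz : 0 ≤ m * (1.36 * m - z) := mul_nonneg hm0.le a1
  have mm : 0 ≤ m * (1 - 9 * m) := mul_nonneg hm0.le hm
  -- R coefficient
  have cR : 0 ≤ 5 - 10 * z - 5 * U - 20 * P := by linarith
  have RR : 0 ≤ R * (5 - 10 * z - 5 * U - 20 * P) := mul_nonneg hRR cR
  have A : 0 < (3 * z + 2 * w - 19 * z * w) - 15/18 * m + (4 - 17 * w) * U + (1 - 23 * w) * P := by
    rcases le_total P (0.5 * m) with hp | hp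
    · linarith
    · linarith
  have B : 0 < (3 * z + 2 * w - 19 * z * w) - 15/18 * m + (4 - 17 * w) * U + (1 - 23 * w) * P
      + 1.69 * m * (4 - 13 * z - 9 * U - 21 * P) := by
    rcases le_total P (0.9 * m) with hp | hp
    · linarith
    · rcases le_total P m with hp' | hp'
      · linarith
      · linarith
  rcases le_total 0 (4 - 13 * z - 9 * U - 21 * P) with hc | hc
  · have := mul_nonneg hV hc
    linarith
  · have : 0 ≤ (1.69 * m - V) * -(4 - 13 * z - 9 * U - 21 * P) :=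
      mul_nonneg (by linarith) (by linarith)
    linarith

/-- case (0,4) -/
theorem case04 {m z w U P V R : ℝ} (hm : 0 ≤ 1 - 9 * m) (hm0 : 0 < m) (hz1 : m ≤ z) (hw1 : m ≤ w)
    (a1 : 0 ≤ 1.36 * m - z) (a2 : 0 ≤ 1.179 * m - w) (hT : 2.9 * m ≤ 3 * z + 2 * w - 19 * z * w)
    (hzm : 2 * m + 3 * (z * w) ≤ 2 * z)
    (hU : 0 ≤ U) (hPP : 0 ≤ P) (hV : 0 ≤ V) (hRR : 0 ≤ R) (hUP : U + P ≤ 1.69 * m)
    (hVR : V + R ≤ 1.24 * m) (hR : 9 * (z * R) ≤ m) :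
    0 < (3 * z + 2 * w - 19 * z * w) - 15/18 * m + (4 - 17 * w) * U + (5 - 15 * w) * P
      + (4 - 13 * z) * V + (1 - 22 * z) * R - 9 * (U * V) - 21 * (U * R)
      - 5 * (P * V) - 20 * (P * R) := by
  have zR1 : 0 ≤ R * (1.36 * m - z) := mul_nonneg hRR a1
  have zV1 : 0 ≤ V * (1.36 * m - z) := mul_nonneg hV a1
  have mR : 0 ≤ R * (1 - 9 * m) := mul_nonneg hRR hm
  have mV : 0 ≤ V * (1 - 9 * m) := mul_nonneg hV hm
  have mzR : 0 ≤ R * (z - m) := mul_nonneg hRR (by linarith)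
  have mw : 0 ≤ m * (1.179 * m - w) := mul_nonneg hm0.le a2
  have mm : 0 ≤ m * (1 - 9 * m) := mul_nonneg hm0.le hm
  have hR9 : R ≤ 1 / 9 := by
    by_contra hcon
    push Not at hcon
    have : 0 < z := by linarith
    have := mul_lt_mul_of_pos_left hcon this
    linarith
  have cP : 0 ≤ 5 - 15 * w - 5 * V - 20 * R := by linarith
  have PP : 0 ≤ P * (5 - 15 * w - 5 * V - 20 * R) := mul_nonneg hPP cP
  have A : 0 < (3 * z + 2 * w - 19 * z * w) - 15/18 * m + (4 - 13 * z) * V + (1 - 22 * z) * R := by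
    rcases le_total R (0.5 * m) with hp | hp
    · linarith
    · linarith
  -- 9 R ≤ 1 - 1.5 m
  have hR10 : 9 * R ≤ 1 - 1.5 * m := by
    by_contra hcon
    push Not at hcon
    have hz0 : 0 < z := by linarith
    have h1 := mul_lt_mul_of_pos_left hcon hz0
    have h2 : 0 ≤ z * (w - m) := mul_nonneg hz0.le (by linarith)
    nlinarith
  have mR10 : 0 ≤ m * (1 - 1.5 * m - 9 * R) := mul_nonneg hm0.le (by linarith)
  have B : 0 < (3 * z + 2 * w - 19 * z * w) - 15/18 * m + (4 - 13 * z) * V + (1 - 22 * z) * R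
      + 1.69 * m * (4 - 17 * w - 9 * V - 21 * R) := by
    rcases le_total R (0.85 * m) with hp | hp
    · linarith
    · rcases le_total m 0.0737 with hp' | hp'
      · have : 0 ≤ R * (0.0737 - m) := mul_nonneg hRR (by linarith)
        linarith
      · have : 0 ≤ m * (m - 0.0737) := mul_nonneg hm0.le (by linarith)
        linarith
  rcases le_total 0 (4 - 17 * w - 9 * V - 21 * R) with hc | hc
  · have := mul_nonneg hU hc
    linarith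
  · have : 0 ≤ (1.69 * m - U) * -(4 - 17 * w - 9 * V - 21 * R) :=
      mul_nonneg (by linarith) (by linarith)
    linarith

/-- case (2,2) -/
theorem case22 {m z w U P V R : ℝ} (hm : 0 ≤ 1 - 9 * m) (hm0 : 0 < m) (hz1 : m ≤ z) (hw1 : m ≤ w)
    (a1 : 0 ≤ 1.36 * m - z) (a2 : 0 ≤ 1.179 * m - w) (hT : 2.9 * m ≤ 3 * z + 2 * w - 19 * z * w)
    (hzm : 2 * m + 3 * (z * w) ≤ 2 * z)
    (hU : 0 ≤ U) (hPP : 0 ≤ P) (hV : 0 ≤ V) (hRR : 0 ≤ R) (hUP : 0 ≤ 2 * m - U - P)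
    (hVR : 0 ≤ 2 * m - V - R)
    (E1 : 9 * ((z - m + (U + P) / 2) * (V + R)) ≤ m) :
    0 < (3 * z + 2 * w - 19 * z * w) + (4 - 17 * w) * U + (3 - 19 * w) * P
      + (4 - 13 * z) * V + (3 - 16 * z) * R - 9 * (U * V) - 13 * (U * R)
      - 13 * (P * V) - 16 * (P * R) := by
  obtain ⟨x, hx⟩ : ∃ x, x = U + P := ⟨_, rfl⟩
  obtain ⟨y, hy⟩ : ∃ y, y = V + R := ⟨_, rfl⟩
  have x0 : 0 ≤ x := by linarith
  have y0 : 0 ≤ y := by linarith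
  have x2 : x ≤ 2 * m := by linarith
  have y2 : y ≤ 2 * m := by linarith
  have hw0 : 0 ≤ w := by linarith
  have hz0 : 0 ≤ z := by linarith
  have key : 0 < (3 * z + 2 * w - 19 * z * w) + (3 - 19 * w) * x + (3 - 16 * z) * y - 16 * (x * y) := by
    have xw : 0 ≤ x * (1.179 * m - w) := mul_nonneg x0 a2
    have yz : 0 ≤ y * (1.36 * m - z) := mul_nonneg y0 a1
    have xm : 0 ≤ x * (1 - 9 * m) := mul_nonneg x0 hm
    have ym : 0 ≤ y * (1 - 9 * m) := mul_nonneg y0 hm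
    rcases le_total y (0.5 * m) with h | h
    · have : 0 ≤ x * (0.5 * m - y) := mul_nonneg x0 (by linarith)
      linarith
    rcases le_total x (0.5 * m) with h' | h'
    · have : 0 ≤ y * (0.5 * m - x) := mul_nonneg y0 (by linarith)
      linarith
    rw [← hx, ← hy] at E1
    have zm : 1.5 * m * m ≤ z - m := by
      have : m * m ≤ z * w := mul_le_mul hz1 hw1 hm0.le hz0
      linarith
    have h5 : y * (1.5 * m * m) ≤ y * (z - m) := mul_le_mul_of_nonneg_left zm y0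
    have mm : 0 ≤ m * (1 - 9 * m) := mul_nonneg hm0.le hm
    have h6 : 0 ≤ (y - 0.5 * m) * (m * m) := mul_nonneg (by linarith) (mul_nonneg hm0.le hm0.le)
    have c1 : 0 ≤ (x - 0.5 * m) * (3 - 22.5 * m) := mul_nonneg (by linarith) (by linarith)
    have c2 : 0 ≤ (y - 0.5 * m) * (3 - 22 * m) := mul_nonneg (by linarith) (by linarith)
    have e1 : 9 * ((z - m + x / 2) * y) = 9 * (y * (z - m)) + 4.5 * (x * y) := by ring
    rw [e1] at E1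
    have f1 : 0 < m * (2.34 - 22.25 * m + 24 * (m * m)) := by
      apply mul_pos hm0
      nlinarith
    nlinarith
  have h1 : 0 ≤ U * (1 + 2 * w + 4 * V + 3 * R) := mul_nonneg hU (by linarith)
  have h2 : 0 ≤ V * (1 + 3 * z + 3 * P) := mul_nonneg hV (by linarith)
  have h3 : 0 ≤ U * V := mul_nonneg hU hV
  subst hx
  subst hy
  nlinarith [key, h1, h2, h3]

end R88CDX
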