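import Pool.Agent.R745.CDX.Defs
import Pool.Agent.R88.CDX.XF5R

set_option linter.unusedVariables false
namespace R88CDX
open R745CDX H825CD


theorem core {K L : ℕ} {m aj bj z w ai bi s zP t wP Z10 U U11 P P11 W10 V V11 R R11 p r : ℝ}
    (h : FinX 5 m 2 3 K L aj bj z w ai bi s zP t wP Z10 U U11 P P11 W10 V V11 R R11 p r)
    (V1 : p * (r + 2 * (5:ℕ) * (W10 + (V + R)) + (5:ℕ) ^ 2 * (V11 + R11)) ≤ 1)
    (V2 : r * (p + 2 * (5:ℕ) * (Z10 + (U + P)) + (5:ℕ) ^ 2 * (U11 + P11)) ≤ 1) :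
    ∃ x1 x2 : ℝ, 0 ≤ x1 ∧ 9 * x1 ≤ m ∧ 0 ≤ x2 ∧ 9 * x2 ≤ m ∧
    2 * ((1 - 2 * z - U - K * P) * (1 - 3 * w - V - L * R))
      + 10 * ((1 - 2 * z - U - K * P) * (w + V + R)) + 10 * ((1 - 3 * w - V - L * R) * (z + U + P))
      + (25 - 10 * L) * x1 + (25 - 10 * K) * x2 ≤ 2 := by
  have hq : (qb 5 : ℝ) = 9 := by norm_num [qb]
  obtain ⟨hm, hm0, hk, hl, hkl, hKL, haj0, hbj0, hai0, hbi0, haj2, hbj2, hai2, hbi2, haj, hbj, hJ1,
    hJ2, hJ3, hs, hzP, ht, hwP, hai, hbi, hI1, hI2, hZ10, hU01, hU11, hP01, hP11, hW10, hV01, hV11,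
    hR01, hR11, c1, c2, c3, c4, r1, r2, hp, hr, hp2, hr2, q1, q2, q3, q4, q5, q6⟩ := h
  rw [hq] at q5 q6
  push_cast at haj hbj c1 c2 c3 c4 V1 V2
  have hp0 : 0 ≤ 1 - 2 * z - U - K * P := by
    have : (K:ℝ) * P ≤ K * zP := mul_le_mul_of_nonneg_left (by linarith) (Nat.cast_nonneg K)
    linarith
  have hr0 : 0 ≤ 1 - 3 * w - V - L * R := by
    have : (L:ℝ) * R ≤ L * wP := mul_le_mul_of_nonneg_left (by linarith) (Nat.cast_nonneg L)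
    linarith
  have hpp : 1 - 2 * z - U - K * P ≤ p := by linarith
  have hrr : 1 - 3 * w - V - L * R ≤ r := by linarith
  have hp_ : 0 ≤ p := le_trans hp0 hpp
  have hr_ : 0 ≤ r := le_trans hr0 hrr
  have hz0 : 0 ≤ z := by linarith
  have hw0 : 0 ≤ w := by linarith
  have e1 : 0 ≤ p * R11 := mul_nonneg hp_ hR11
  have e2 : 0 ≤ r * P11 := mul_nonneg hr_ hP11
  have e3 : 0 ≤ p * V11 := mul_nonneg hp_ hV11
  have e4 : 0 ≤ r * U11 := mul_nonneg hr_ hU11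
  have e5 : 0 ≤ Z10 * R11 := mul_nonneg hZ10 hR11
  have e6 : 0 ≤ Z10 * V11 := mul_nonneg hZ10 hV11
  have e7 : 0 ≤ W10 * P11 := mul_nonneg hW10 hP11
  have e8 : 0 ≤ W10 * U11 := mul_nonneg hW10 hU11
  have f1 := mul_le_mul hpp hrr hr0 hp_
  have f2 : (1 - 2 * z - U - K * P) * (w + V + R) ≤ p * (w + V + R) :=
    mul_le_mul_of_nonneg_right hpp (by linarith)
  have f3 : (1 - 3 * w - V - L * R) * (z + U + P) ≤ r * (z + U + P) :=
    mul_le_mul_of_nonneg_right hrr (by linarith)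
  have f4 : p * w ≤ p * (W10 + V11 + L * R11) := mul_le_mul_of_nonneg_left r2 hp_
  have f5 : r * z ≤ r * (Z10 + U11 + K * P11) := mul_le_mul_of_nonneg_left r1 hr_
  generalize (1 - 2 * z - U - K * P) * (1 - 3 * w - V - L * R) = X1 at *
  generalize (1 - 2 * z - U - K * P) * (w + V + R) = X2 at *
  generalize (1 - 3 * w - V - L * R) * (z + U + P) = X3 at *
  refine ⟨p * R11, r * P11, e1, ?_, e2, ?_, ?_⟩
  · have : (9:ℝ) * ((V11 + R11) * (p + Z10)) = 9 * (p * R11) + 9 * (p * V11) + 9 * (Z10 * R11) + 9 * (Z10 * V11) := by ring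
    linarith
  · have : (9:ℝ) * ((U11 + P11) * (r + W10)) = 9 * (r * P11) + 9 * (r * U11) + 9 * (W10 * P11) + 9 * (W10 * U11) := by ring
    linarith
  have g1 : p * (r + 2 * 5 * (W10 + (V + R)) + 5 ^ 2 * (V11 + R11)) = p * r + 10 * (p * W10) + 10 * (p * V) + 10 * (p * R) + 25 * (p * V11) + 25 * (p * R11) := by ring
  have g2 : r * (p + 2 * 5 * (Z10 + (U + P)) + 5 ^ 2 * (U11 + P11)) = p * r + 10 * (r * Z10) + 10 * (r * U) + 10 * (r * P) + 25 * (r * U11) + 25 * (r * P11) := by ring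
  have g3 : p * (w + V + R) = p * w + p * V + p * R := by ring
  have g4 : r * (z + U + P) = r * z + r * U + r * P := by ring
  have g5 : p * (W10 + V11 + L * R11) = p * W10 + p * V11 + L * (p * R11) := by ring
  have g6 : r * (Z10 + U11 + K * P11) = r * Z10 + r * U11 + K * (r * P11) := by ring
  have g7 : (25 - 10 * (L:ℝ)) * (p * R11) = 25 * (p * R11) - 10 * (L * (p * R11)) := by ring
  have g8 : (25 - 10 * (K:ℝ)) * (r * P11) = 25 * (r * P11) - 10 * (K * (r * P11)) := by ring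
  rw [g7, g8]
  linarith




theorem zw_bounds {m z w : ℝ} (hm : 9 * m ≤ 1) (hm0 : 0 < m) (hz0 : 0 ≤ z) (hw0 : 0 ≤ w)
    (hz : 2 * z ≤ 1 / 2) (hw : 3 * w ≤ 1 / 2)
    (h1 : z * (1 - 2 * w) ≤ m) (h2 : w * (1 - z) ≤ m) (h3 : 5 * m < 2 * z + 3 * w - 6 * z * w) :
    z ≤ 1.36 * m ∧ w ≤ 1.179 * m ∧ 2 * m + 3 * (z * w) ≤ 2 * z ∧ 3 * m + 2 * (z * w) ≤ 3 * w := by
  have a1 : w ≤ 4 / 3 * m := by nlinarith
  have a2 : z ≤ 27 / 19 * m := by nlinarith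
  have a3 : w ≤ 19 / 16 * m := by nlinarith
  have a4 : z ≤ 1.36 * m := by nlinarith
  have a5 : w ≤ 1.179 * m := by nlinarith
  refine ⟨a4, a5, by nlinarith, by nlinarith⟩

theorem T0_bound {m z w : ℝ} (hm : 9 * m ≤ 1) (hm0 : 0 < m) (hz0 : 0 ≤ z) (hw0 : 0 ≤ w)
    (a1 : z ≤ 1.36 * m) (a2 : w ≤ 1.179 * m) (a3 : 2 * m + 3 * (z * w) ≤ 2 * z)
    (a4 : 3 * m + 2 * (z * w) ≤ 3 * w) (h1 : z * (1 - 2 * w) ≤ m) (h2 : w * (1 - z) ≤ m) :
    2.9 * m ≤ 3 * z + 2 * w - 19 * z * w := by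
  nlinarith [mul_nonneg (sub_nonneg.2 a1) (sub_nonneg.2 a2), mul_nonneg hz0 (sub_nonneg.2 a2), mul_nonneg hw0 (sub_nonneg.2 a1)]

theorem half {x b w c m : ℝ} (hx : 0 ≤ x) (hc : 1 - c ≤ 1 - b + w) (h : x * (1 - b + w) ≤ m) :
    x * (1 - c) ≤ m := le_trans (mul_le_mul_of_nonneg_left hc hx) h

theorem prod1 {Z R R11 S z m : ℝ} (hz : z ≤ Z + S) (hR : 0 ≤ R) (hR11 : 0 ≤ R11) (hz0 : 0 ≤ z)
    (h : 9 * ((Z + S) * (R + R11)) ≤ m) : 9 * (z * R) ≤ m := by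
  have h1 : z * R ≤ (Z + S) * (R + R11) := mul_le_mul hz (by linarith) hR (le_trans hz0 hz)
  linarith

structure Facts (K L : ℕ) (m z w U P V R : ℝ) : Prop where
  hm : 0 ≤ 1 - 9 * m
  hm0 : 0 < m
  hz1 : m ≤ z
  hw1 : m ≤ w
  a1 : 0 ≤ 1.36 * m - z
  a2 : 0 ≤ 1.179 * m - w
  hT : 2.9 * m ≤ 3 * z + 2 * w - 19 * z * w
  hzm : 2 * m + 3 * (z * w) ≤ 2 * z
  hwm : 3 * m + 2 * (z * w) ≤ 3 * w
  hU : 0 ≤ U
  hPP : 0 ≤ P
  hV : 0 ≤ V
  hRR : 0 ≤ R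
  hUP : 0 ≤ 2 * m - U - P
  hVR : 0 ≤ 2 * m - V - R
  hP : L ≤ 1 → 9 * (w * P) ≤ m
  hR : K ≤ 1 → 9 * (z * R) ≤ m
  hUP4 : K = 4 → L = 0 → U + P ≤ 1.24 * m
  hVR4 : K = 4 → L = 0 → V + R ≤ 1.69 * m
  hUP0 : K = 0 → L = 4 → U + P ≤ 1.69 * m
  hVR0 : K = 0 → L = 4 → V + R ≤ 1.24 * m
  E1 : K = 2 → L = 2 → 9 * ((z - m + (U + P) / 2) * (V + R)) ≤ m
  E2 : K = 2 → L = 2 → 9 * ((w - 2 * m / 3 + (V + R) / 3) * (U + P)) ≤ m

theorem facts {K L : ℕ} {m aj bj z w ai bi s zP t wP Z10 U U11 P P11 W10 V V11 R R11 p r : ℝ}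
    (h : FinX 5 m 2 3 K L aj bj z w ai bi s zP t wP Z10 U U11 P P11 W10 V V11 R R11 p r) :
    Facts K L m z w U P V R := by
  have hq : (qb 5 : ℝ) = 9 := by norm_num [qb]
  obtain ⟨hm, hm0, hk, hl, hkl, hKL, haj0, hbj0, hai0, hbi0, haj2, hbj2, hai2, hbi2, haj, hbj, hJ1,
    hJ2, hJ3, hs, hzP, ht, hwP, hai, hbi, hI1, hI2, hZ10, hU01, hU11, hP01, hP11, hW10, hV01, hV11,
    hR01, hR11, c1, c2, c3, c4, r1, r2, hp, hr, hp2, hr2, q1, q2, q3, q4, q5, q6⟩ := h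
  rw [hq] at hm q1 q2 q3 q4
  push_cast at haj hbj c1 c2 c3 c4 hJ3
  have hz0 : 0 ≤ z := by linarith
  have hw0 : 0 ≤ w := by linarith
  subst haj
  subst hbj
  have h1 : z * (1 - 2 * w) ≤ m := by
    have : z * (1 - 3 * w + w) = z * (1 - 2 * w) := by ring
    linarith
  have h2 : w * (1 - z) ≤ m := by
    have : w * (1 - 2 * z + z) = w * (1 - z) := by ring
    linarith
  have h3 : 5 * m < 2 * z + 3 * w - 6 * z * w := by
    have : 2 * z * (3 * w) = 6 * z * w := by ring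
    linarith
  obtain ⟨b4, b5, b6, b7⟩ := zw_bounds hm hm0 hz0 hw0 haj2 hbj2 h1 h2 h3
  have b8 : 0 ≤ z * w := mul_nonneg hz0 hw0
  have hz1 : m ≤ z := by linarith
  have hw1 : m ≤ w := by linarith
  have b9 := T0_bound hm hm0 hz0 hw0 b4 b5 b6 b7 h1 h2
  have sz : s + zP ≤ 2 * m := by
    have := half (c := 1/2) (by linarith) (by linarith) hI1
    linarith
  have tw : t + wP ≤ 2 * m := by
    have := half (c := 1/2) (by linarith) (by linarith) hI2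
    linarith
  refine ⟨by linarith, hm0, hz1, hw1, by linarith, by linarith, b9, b6, b7, hU01,
    hP01, hV01, hR01, by linarith, by linarith, ?_, ?_, ?_, ?_, ?_, ?_, ?_, ?_⟩
  · intro hL
    have hL' : (L:ℝ) ≤ 1 := by exact_mod_cast hL
    have h5 : (L:ℝ) * R11 ≤ 1 * R11 := mul_le_mul_of_nonneg_right hL' hR11
    exact prod1 (Z := W10) (S := V11 + R11) (by linarith) hP01 hP11 hw0 q4
  · intro hK
    have hK' : (K:ℝ) ≤ 1 := by exact_mod_cast hK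
    have h5 : (K:ℝ) * P11 ≤ 1 * P11 := mul_le_mul_of_nonneg_right hK' hP11
    exact prod1 (Z := Z10) (S := U11 + P11) (by linarith) hR01 hR11 hz0 q3
  · rintro rfl rfl
    push_cast at hai hbi
    have h7 : t + wP ≤ 1.69 * m := by
      have := half (c := 0.408) (by linarith) (by linarith) hI2
      linarith
    have h8 : s + zP ≤ 1.24 * m := by
      have := half (c := 0.188) (by linarith) (by linarith) hI1
      linarith
    linarith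
  · rintro rfl rfl
    push_cast at hai hbi
    have h7 : t + wP ≤ 1.69 * m := by
      have := half (c := 0.408) (by linarith) (by linarith) hI2
      linarith
    linarith
  · rintro rfl rfl
    push_cast at hai hbi
    have h7 : s + zP ≤ 1.69 * m := by
      have := half (c := 0.408) (by linarith) (by linarith) hI1
      linarith
    linarith
  · rintro rfl rfl
    push_cast at hai hbi
    have h7 : s + zP ≤ 1.69 * m := by
      have := half (c := 0.408) (by linarith) (by linarith) hI1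
      linarith
    have h8 : t + wP ≤ 1.24 * m := by
      have := half (c := 0.188) (by linarith) (by linarith) hI2
      linarith
    linarith
  · rintro rfl rfl
    push_cast at hai hbi r1 r2
    have pp : 0 < p := by linarith
    have g1 := q1 pp
    have g2 : z - m + (U + P) / 2 ≤ Z10 + P11 := by linarith
    have g3 : 0 ≤ z - m + (U + P) / 2 := by linarith
    have g4 : (z - m + (U + P) / 2) * (V + R) ≤ (Z10 + P11) * (V + R + (V11 + R11)) :=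
      mul_le_mul g2 (by linarith) (by linarith) (by linarith)
    linarith
  · rintro rfl rfl
    push_cast at hai hbi r1 r2
    have rr : 0 < r := by linarith
    have g1 := q2 rr
    have g2 : w - 2 * m / 3 + (V + R) / 3 ≤ W10 + R11 := by linarith
    have g3 : 0 ≤ w - 2 * m / 3 + (V + R) / 3 := by linarith
    have g4 : (w - 2 * m / 3 + (V + R) / 3) * (U + P) ≤ (W10 + R11) * (U + P + (U11 + P11)) :=
      mul_le_mul g2 (by linarith) (by linarith) (by linarith)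
    linarith




theorem fin00 {m aj bj z w ai bi s zP t wP Z10 U U11 P P11 W10 V V11 R R11 p r : ℝ}
    (h : FinX 5 m 2 3 0 0 aj bj z w ai bi s zP t wP Z10 U U11 P P11 W10 V V11 R R11 p r)
    (V1 : p * (r + 2 * (5:ℕ) * (W10 + (V + R)) + (5:ℕ) ^ 2 * (V11 + R11)) ≤ 1)
    (V2 : r * (p + 2 * (5:ℕ) * (Z10 + (U + P)) + (5:ℕ) ^ 2 * (U11 + P11)) ≤ 1) : False := by
  have F := facts h
  obtain ⟨x1, x2, hx1, hx1', hx2, hx2', hc⟩ := core h V1 V2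
  have G := case00 F.hm F.hm0 F.hz1 F.hw1 F.a1 F.a2 F.hT F.hU F.hPP F.hV F.hRR F.hUP F.hVR (F.hP (by norm_num)) (F.hR (by norm_num))
  clear h V1 V2 F
  push_cast at hc
  linarith

theorem fin01 {m aj bj z w ai bi s zP t wP Z10 U U11 P P11 W10 V V11 R R11 p r : ℝ}
    (h : FinX 5 m 2 3 0 1 aj bj z w ai bi s zP t wP Z10 U U11 P P11 W10 V V11 R R11 p r)
    (V1 : p * (r + 2 * (5:ℕ) * (W10 + (V + R)) + (5:ℕ) ^ 2 * (V11 + R11)) ≤ 1)
    (V2 : r * (p + 2 * (5:ℕ) * (Z10 + (U + P)) + (5:ℕ) ^ 2 * (U11 + P11)) ≤ 1) : False := by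
  have F := facts h
  obtain ⟨x1, x2, hx1, hx1', hx2, hx2', hc⟩ := core h V1 V2
  have G := case01 F.hm F.hm0 F.hz1 F.hw1 F.a1 F.a2 F.hT F.hU F.hPP F.hV F.hRR F.hUP F.hVR (F.hP (by norm_num)) (F.hR (by norm_num))
  clear h V1 V2 F
  push_cast at hc
  linarith

theorem fin10 {m aj bj z w ai bi s zP t wP Z10 U U11 P P11 W10 V V11 R R11 p r : ℝ}
    (h : FinX 5 m 2 3 1 0 aj bj z w ai bi s zP t wP Z10 U U11 P P11 W10 V V11 R R11 p r)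
    (V1 : p * (r + 2 * (5:ℕ) * (W10 + (V + R)) + (5:ℕ) ^ 2 * (V11 + R11)) ≤ 1)
    (V2 : r * (p + 2 * (5:ℕ) * (Z10 + (U + P)) + (5:ℕ) ^ 2 * (U11 + P11)) ≤ 1) : False := by
  have F := facts h
  obtain ⟨x1, x2, hx1, hx1', hx2, hx2', hc⟩ := core h V1 V2
  have G := case10 F.hm F.hm0 F.hz1 F.hw1 F.a1 F.a2 F.hT F.hU F.hPP F.hV F.hRR F.hUP F.hVR (F.hP (by norm_num)) (F.hR (by norm_num))
  clear h V1 V2 F
  push_cast at hc
  linarith

theorem fin02 {m aj bj z w ai bi s zP t wP Z10 U U11 P P11 W10 V V11 R R11 p r : ℝ}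
    (h : FinX 5 m 2 3 0 2 aj bj z w ai bi s zP t wP Z10 U U11 P P11 W10 V V11 R R11 p r)
    (V1 : p * (r + 2 * (5:ℕ) * (W10 + (V + R)) + (5:ℕ) ^ 2 * (V11 + R11)) ≤ 1)
    (V2 : r * (p + 2 * (5:ℕ) * (Z10 + (U + P)) + (5:ℕ) ^ 2 * (U11 + P11)) ≤ 1) : False := by
  have F := facts h
  obtain ⟨x1, x2, hx1, hx1', hx2, hx2', hc⟩ := core h V1 V2
  have G := case02 F.hm F.hm0 F.hz1 F.hw1 F.a1 F.a2 F.hT F.hU F.hPP F.hV F.hRR F.hUP F.hVR (F.hR (by norm_num))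
  clear h V1 V2 F
  push_cast at hc
  linarith

theorem fin11 {m aj bj z w ai bi s zP t wP Z10 U U11 P P11 W10 V V11 R R11 p r : ℝ}
    (h : FinX 5 m 2 3 1 1 aj bj z w ai bi s zP t wP Z10 U U11 P P11 W10 V V11 R R11 p r)
    (V1 : p * (r + 2 * (5:ℕ) * (W10 + (V + R)) + (5:ℕ) ^ 2 * (V11 + R11)) ≤ 1)
    (V2 : r * (p + 2 * (5:ℕ) * (Z10 + (U + P)) + (5:ℕ) ^ 2 * (U11 + P11)) ≤ 1) : False := by
  have F := facts h
  obtain ⟨x1, x2, hx1, hx1', hx2, hx2', hc⟩ := core h V1 V2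
  have G := case11 F.hm F.hm0 F.hz1 F.hw1 F.a1 F.a2 F.hT F.hU F.hPP F.hV F.hRR F.hUP F.hVR (F.hP (by norm_num)) (F.hR (by norm_num))
  clear h V1 V2 F
  push_cast at hc
  linarith

theorem fin20 {m aj bj z w ai bi s zP t wP Z10 U U11 P P11 W10 V V11 R R11 p r : ℝ}
    (h : FinX 5 m 2 3 2 0 aj bj z w ai bi s zP t wP Z10 U U11 P P11 W10 V V11 R R11 p r)
    (V1 : p * (r + 2 * (5:ℕ) * (W10 + (V + R)) + (5:ℕ) ^ 2 * (V11 + R11)) ≤ 1)
    (V2 : r * (p + 2 * (5:ℕ) * (Z10 + (U + P)) + (5:ℕ) ^ 2 * (U11 + P11)) ≤ 1) : False := by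
  have F := facts h
  obtain ⟨x1, x2, hx1, hx1', hx2, hx2', hc⟩ := core h V1 V2
  have G := case20 F.hm F.hm0 F.hz1 F.hw1 F.a1 F.a2 F.hT F.hU F.hPP F.hV F.hRR F.hUP F.hVR (F.hP (by norm_num))
  clear h V1 V2 F
  push_cast at hc
  linarith

theorem fin03 {m aj bj z w ai bi s zP t wP Z10 U U11 P P11 W10 V V11 R R11 p r : ℝ}
    (h : FinX 5 m 2 3 0 3 aj bj z w ai bi s zP t wP Z10 U U11 P P11 W10 V V11 R R11 p r)
    (V1 : p * (r + 2 * (5:ℕ) * (W10 + (V + R)) + (5:ℕ) ^ 2 * (V11 + R11)) ≤ 1)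
    (V2 : r * (p + 2 * (5:ℕ) * (Z10 + (U + P)) + (5:ℕ) ^ 2 * (U11 + P11)) ≤ 1) : False := by
  have F := facts h
  obtain ⟨x1, x2, hx1, hx1', hx2, hx2', hc⟩ := core h V1 V2
  have G := case03 F.hm F.hm0 F.hz1 F.hw1 F.a1 F.a2 F.hT F.hU F.hPP F.hV F.hRR F.hUP F.hVR (F.hR (by norm_num))
  clear h V1 V2 F
  push_cast at hc
  linarith

theorem fin12 {m aj bj z w ai bi s zP t wP Z10 U U11 P P11 W10 V V11 R R11 p r : ℝ}
    (h : FinX 5 m 2 3 1 2 aj bj z w ai bi s zP t wP Z10 U U11 P P11 W10 V V11 R R11 p r)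
    (V1 : p * (r + 2 * (5:ℕ) * (W10 + (V + R)) + (5:ℕ) ^ 2 * (V11 + R11)) ≤ 1)
    (V2 : r * (p + 2 * (5:ℕ) * (Z10 + (U + P)) + (5:ℕ) ^ 2 * (U11 + P11)) ≤ 1) : False := by
  have F := facts h
  obtain ⟨x1, x2, hx1, hx1', hx2, hx2', hc⟩ := core h V1 V2
  have G := case12 F.hm F.hm0 F.hz1 F.hw1 F.a1 F.a2 F.hT F.hU F.hPP F.hV F.hRR F.hUP F.hVR (F.hR (by norm_num))
  clear h V1 V2 F
  push_cast at hc
  linarith

theorem fin21 {m aj bj z w ai bi s zP t wP Z10 U U11 P P11 W10 V V11 R R11 p r : ℝ}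
    (h : FinX 5 m 2 3 2 1 aj bj z w ai bi s zP t wP Z10 U U11 P P11 W10 V V11 R R11 p r)
    (V1 : p * (r + 2 * (5:ℕ) * (W10 + (V + R)) + (5:ℕ) ^ 2 * (V11 + R11)) ≤ 1)
    (V2 : r * (p + 2 * (5:ℕ) * (Z10 + (U + P)) + (5:ℕ) ^ 2 * (U11 + P11)) ≤ 1) : False := by
  have F := facts h
  obtain ⟨x1, x2, hx1, hx1', hx2, hx2', hc⟩ := core h V1 V2
  have G := case21 F.hm F.hm0 F.hz1 F.hw1 F.a1 F.a2 F.hT F.hU F.hPP F.hV F.hRR F.hUP F.hVR (F.hP (by norm_num))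
  clear h V1 V2 F
  push_cast at hc
  linarith

theorem fin30 {m aj bj z w ai bi s zP t wP Z10 U U11 P P11 W10 V V11 R R11 p r : ℝ}
    (h : FinX 5 m 2 3 3 0 aj bj z w ai bi s zP t wP Z10 U U11 P P11 W10 V V11 R R11 p r)
    (V1 : p * (r + 2 * (5:ℕ) * (W10 + (V + R)) + (5:ℕ) ^ 2 * (V11 + R11)) ≤ 1)
    (V2 : r * (p + 2 * (5:ℕ) * (Z10 + (U + P)) + (5:ℕ) ^ 2 * (U11 + P11)) ≤ 1) : False := by
  have F := facts h
  obtain ⟨x1, x2, hx1, hx1', hx2, hx2', hc⟩ := core h V1 V2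
  have G := case30 F.hm F.hm0 F.hz1 F.hw1 F.a1 F.a2 F.hT F.hU F.hPP F.hV F.hRR F.hUP F.hVR (F.hP (by norm_num))
  clear h V1 V2 F
  push_cast at hc
  linarith

theorem fin04 {m aj bj z w ai bi s zP t wP Z10 U U11 P P11 W10 V V11 R R11 p r : ℝ}
    (h : FinX 5 m 2 3 0 4 aj bj z w ai bi s zP t wP Z10 U U11 P P11 W10 V V11 R R11 p r)
    (V1 : p * (r + 2 * (5:ℕ) * (W10 + (V + R)) + (5:ℕ) ^ 2 * (V11 + R11)) ≤ 1)
    (V2 : r * (p + 2 * (5:ℕ) * (Z10 + (U + P)) + (5:ℕ) ^ 2 * (U11 + P11)) ≤ 1) : False := by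
  have F := facts h
  obtain ⟨x1, x2, hx1, hx1', hx2, hx2', hc⟩ := core h V1 V2
  have G := case04 F.hm F.hm0 F.hz1 F.hw1 F.a1 F.a2 F.hT F.hzm F.hU F.hPP F.hV F.hRR (F.hUP0 rfl rfl) (F.hVR0 rfl rfl) (F.hR (by norm_num))
  clear h V1 V2 F
  push_cast at hc
  linarith

theorem fin13 {m aj bj z w ai bi s zP t wP Z10 U U11 P P11 W10 V V11 R R11 p r : ℝ}
    (h : FinX 5 m 2 3 1 3 aj bj z w ai bi s zP t wP Z10 U U11 P P11 W10 V V11 R R11 p r)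
    (V1 : p * (r + 2 * (5:ℕ) * (W10 + (V + R)) + (5:ℕ) ^ 2 * (V11 + R11)) ≤ 1)
    (V2 : r * (p + 2 * (5:ℕ) * (Z10 + (U + P)) + (5:ℕ) ^ 2 * (U11 + P11)) ≤ 1) : False := by
  have F := facts h
  obtain ⟨x1, x2, hx1, hx1', hx2, hx2', hc⟩ := core h V1 V2
  have G := case13 F.hm F.hm0 F.hz1 F.hw1 F.a1 F.a2 F.hT F.hU F.hPP F.hV F.hRR F.hUP F.hVR (F.hR (by norm_num))
  clear h V1 V2 F
  push_cast at hc
  linarith

theorem fin22 {m aj bj z w ai bi s zP t wP Z10 U U11 P P11 W10 V V11 R R11 p r : ℝ}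
    (h : FinX 5 m 2 3 2 2 aj bj z w ai bi s zP t wP Z10 U U11 P P11 W10 V V11 R R11 p r)
    (V1 : p * (r + 2 * (5:ℕ) * (W10 + (V + R)) + (5:ℕ) ^ 2 * (V11 + R11)) ≤ 1)
    (V2 : r * (p + 2 * (5:ℕ) * (Z10 + (U + P)) + (5:ℕ) ^ 2 * (U11 + P11)) ≤ 1) : False := by
  have F := facts h
  obtain ⟨x1, x2, hx1, hx1', hx2, hx2', hc⟩ := core h V1 V2
  have G := case22 F.hm F.hm0 F.hz1 F.hw1 F.a1 F.a2 F.hT F.hzm F.hU F.hPP F.hV F.hRR F.hUP F.hVR (F.E1 rfl rfl)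
  clear h V1 V2 F
  push_cast at hc
  linarith

theorem fin31 {m aj bj z w ai bi s zP t wP Z10 U U11 P P11 W10 V V11 R R11 p r : ℝ}
    (h : FinX 5 m 2 3 3 1 aj bj z w ai bi s zP t wP Z10 U U11 P P11 W10 V V11 R R11 p r)
    (V1 : p * (r + 2 * (5:ℕ) * (W10 + (V + R)) + (5:ℕ) ^ 2 * (V11 + R11)) ≤ 1)
    (V2 : r * (p + 2 * (5:ℕ) * (Z10 + (U + P)) + (5:ℕ) ^ 2 * (U11 + P11)) ≤ 1) : False := by
  have F := facts h
  obtain ⟨x1, x2, hx1, hx1', hx2, hx2', hc⟩ := core h V1 V2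
  have G := case31 F.hm F.hm0 F.hz1 F.hw1 F.a1 F.a2 F.hT F.hU F.hPP F.hV F.hRR F.hUP F.hVR (F.hP (by norm_num))
  clear h V1 V2 F
  push_cast at hc
  linarith

theorem fin40 {m aj bj z w ai bi s zP t wP Z10 U U11 P P11 W10 V V11 R R11 p r : ℝ}
    (h : FinX 5 m 2 3 4 0 aj bj z w ai bi s zP t wP Z10 U U11 P P11 W10 V V11 R R11 p r)
    (V1 : p * (r + 2 * (5:ℕ) * (W10 + (V + R)) + (5:ℕ) ^ 2 * (V11 + R11)) ≤ 1)
    (V2 : r * (p + 2 * (5:ℕ) * (Z10 + (U + P)) + (5:ℕ) ^ 2 * (U11 + P11)) ≤ 1) : False := by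
  have F := facts h
  obtain ⟨x1, x2, hx1, hx1', hx2, hx2', hc⟩ := core h V1 V2
  have G := case40 F.hm F.hm0 F.hz1 F.hw1 F.a1 F.a2 F.hT F.hU F.hPP F.hV F.hRR (F.hUP4 rfl rfl) (F.hVR4 rfl rfl) (F.hP (by norm_num))
  clear h V1 V2 F
  push_cast at hc
  linarith

theorem xf5a {K L : ℕ} {m aj bj z w ai bi s zP t wP Z10 U U11 P P11 W10 V V11 R R11 p r : ℝ}
    (h : FinX 5 m 2 3 K L aj bj z w ai bi s zP t wP Z10 U U11 P P11 W10 V V11 R R11 p r)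
    (hKL : K + L ≤ 4)
    (V1 : p * (r + 2 * (5:ℕ) * (W10 + (V + R)) + (5:ℕ) ^ 2 * (V11 + R11)) ≤ 1)
    (V2 : r * (p + 2 * (5:ℕ) * (Z10 + (U + P)) + (5:ℕ) ^ 2 * (U11 + P11)) ≤ 1) : False := by
  have hK : K ≤ 4 := by omega
  have hL : L ≤ 4 := by omega
  interval_cases K <;> interval_cases L <;> first
    | omega
    | exact fin00 h V1 V2
    | exact fin01 h V1 V2
    | exact fin10 h V1 V2
    | exact fin02 h V1 V2
    | exact fin11 h V1 V2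
    | exact fin20 h V1 V2
    | exact fin03 h V1 V2
    | exact fin12 h V1 V2
    | exact fin21 h V1 V2
    | exact fin30 h V1 V2
    | exact fin04 h V1 V2
    | exact fin13 h V1 V2
    | exact fin22 h V1 V2
    | exact fin31 h V1 V2
    | exact fin40 h V1 V2

end R88CDX
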